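import Pool.Agent.Helper50_SFT.Defs

/-!
# Squad MP_5e5085_pr : product measures, shifts and splices; a counting lemma
-/

set_option autoImplicit false

open MeasureTheory

namespace Pool.Agent.Helper62_SFT
open Pool.Agent.Helper50_SFT

/-- shift of a configuration -/
def sh (v : Z2) (y : Z2 → ℝ) : Z2 → ℝ := fun w => y (w + v)

open Classical in
/-- `y` on `A`, `z` outside of `A` -/
noncomputable def spl (A : Set Z2) (y z : Z2 → ℝ) : Z2 → ℝ := fun u => if u ∈ A then y u else z u

theorem sh_sh (v x : Z2) (y : Z2 → ℝ) : sh v (sh x y) = sh (v + x) y := by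
  funext w; simp only [sh, add_assoc]

theorem measurable_sh (v : Z2) : Measurable (sh v) := by
  unfold sh; fun_prop

theorem measurable_spl (A : Set Z2) : Measurable (fun p : (Z2 → ℝ) × (Z2 → ℝ) => spl A p.1 p.2) := by
  rw [measurable_pi_iff]
  intro u
  unfold spl
  by_cases h : u ∈ A
  · simp only [h, if_true]; fun_prop
  · simp only [h, if_false]; fun_prop

section
variable (μ : Measure ℝ) [IsProbabilityMeasure μ]

theorem mp_sh (v : Z2) : MeasurePreserving (sh v)
    (Measure.infinitePi fun _ : Z2 => μ) (Measure.infinitePi fun _ : Z2 => μ) := by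
  refine ⟨measurable_sh v, ?_⟩
  refine Measure.eq_infinitePi _ fun s t ht => ?_
  rw [Measure.map_apply (measurable_sh v) (.pi s.countable_toSet fun _ _ => ht _)]
  have : (sh v) ⁻¹' ((s : Set Z2).pi t) =
      ((s.map (Equiv.addRight v).toEmbedding : Finset Z2) : Set Z2).pi (fun i => t (i - v)) := by
    ext y
    simp only [Set.mem_preimage, Set.mem_pi, sh, Finset.coe_map, Equiv.coe_toEmbedding,
      Set.mem_image, Finset.mem_coe, Equiv.coe_addRight, forall_exists_index, and_imp,
      forall_apply_eq_imp_iff₂, add_sub_cancel_right]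
  rw [this, Measure.infinitePi_pi _ (fun i _ => ht _), Finset.prod_map]
  simp

theorem mp_spl (A : Set Z2) : MeasurePreserving (fun p : (Z2 → ℝ) × (Z2 → ℝ) => spl A p.1 p.2)
    ((Measure.infinitePi fun _ : Z2 => μ).prod (Measure.infinitePi fun _ : Z2 => μ))
    (Measure.infinitePi fun _ : Z2 => μ) := by
  classical
  refine ⟨measurable_spl A, ?_⟩
  refine Measure.eq_infinitePi _ fun s t ht => ?_
  rw [Measure.map_apply (measurable_spl A) (.pi s.countable_toSet fun _ _ => ht _)]
  have : (fun p : (Z2 → ℝ) × (Z2 → ℝ) => spl A p.1 p.2) ⁻¹' ((s : Set Z2).pi t) =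
      (((s.filter (· ∈ A) : Finset Z2) : Set Z2).pi t) ×ˢ
      (((s.filter (¬ · ∈ A) : Finset Z2) : Set Z2).pi t) := by
    ext ⟨y, z⟩
    simp only [Set.mem_preimage, Set.mem_pi, spl, Set.mem_prod, Finset.coe_filter, Set.mem_ofPred_eq,
      Finset.mem_coe, and_imp]
    constructor
    · intro h
      exact ⟨fun i hi hA => by have := h i hi; rwa [if_pos hA] at this,
        fun i hi hA => by have := h i hi; rwa [if_neg hA] at this⟩
    · rintro ⟨h1, h2⟩ i hi
      by_cases hA : i ∈ A
      · rw [if_pos hA]; exact h1 i hi hA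
      · rw [if_neg hA]; exact h2 i hi hA
  rw [this, Measure.prod_prod, Measure.infinitePi_pi _ (fun i _ => ht _),
    Measure.infinitePi_pi _ (fun i _ => ht _)]
  exact Finset.prod_filter_mul_prod_filter_not s (· ∈ A) _

end

/-! ## Counting -/

theorem card_le_of_diam (S : Finset ℤ) (D : ℕ) (h : ∀ x ∈ S, ∀ y ∈ S, x - y ≤ D) :
    S.card ≤ D + 1 := by
  rcases S.eq_empty_or_nonempty with rfl | hS
  · simp
  · have hsub : S ⊆ Finset.Icc (S.min' hS) (S.min' hS + D) := by
      intro x hx
      rw [Finset.mem_Icc]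
      exact ⟨S.min'_le x hx, by have := h x hx _ (S.min'_mem hS); linarith⟩
    refine (Finset.card_le_card hsub).trans ?_
    rw [Int.card_Icc]
    omega

theorem card_le_of_diam_nat (S : Finset ℕ) (D : ℕ) (h : ∀ x ∈ S, ∀ y ∈ S, y ≤ x → x - y ≤ D) :
    S.card ≤ D + 1 := by
  rcases S.eq_empty_or_nonempty with rfl | hS
  · simp
  · have hsub : S ⊆ Finset.Icc (S.min' hS) (S.min' hS + D) := by
      intro x hx
      rw [Finset.mem_Icc]
      have h1 := S.min'_le x hx
      exact ⟨h1, by have := h x hx _ (S.min'_mem hS) h1; omega⟩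
    refine (Finset.card_le_card hsub).trans ?_
    rw [Nat.card_Icc]
    omega

/-- a phase moving at speed about `1/10` rarely is in a short interval modulo `p` -/
theorem count_bound {p : ℕ} [NeZero p] (h : ℕ → ℤ)
    (hh : ∀ n m : ℕ, m ≤ n → 6 * ((n:ℤ) - m) - 400 ≤ 100 * (h n - h m) ∧
      100 * (h n - h m) ≤ 14 * ((n:ℤ) - m) + 400) (a : ZMod p) (m0 N : ℕ) (S : Finset ℕ)
    (hS : ∀ n ∈ S, n < N ∧ ∃ t : ℤ, |t| ≤ m0 ∧ a = (h n : ZMod p) + t) :
    S.card ≤ (34 * m0 + 68) * ((14 * N + 400 + 200 * m0) / (100 * p) + 1) := by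
  classical
  have hp : 0 < p := Nat.pos_of_ne_zero (NeZero.ne p)
  have h1 : ∀ n ∈ S, ∃ t k : ℤ, |t| ≤ m0 ∧ (a.val : ℤ) - h n - t = p * k := by
    intro n hn
    obtain ⟨_, t, ht, hat⟩ := hS n hn
    have : (((a.val : ℤ) - h n - t : ℤ) : ZMod p) = 0 := by
      push_cast
      rw [ZMod.natCast_zmod_val, hat]; ring
    rw [ZMod.intCast_zmod_eq_zero_iff_dvd] at this
    obtain ⟨k, hk⟩ := this
    exact ⟨t, k, ht, hk⟩
  choose! t k ht using h1
  have hfib : ∀ c ∈ S.image k, (S.filter fun n => k n = c).card ≤ 34 * m0 + 68 := by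
    intro c _
    refine card_le_of_diam_nat _ (34 * m0 + 67) ?_
    intro x hx y hy hyx
    rw [Finset.mem_filter] at hx hy
    obtain ⟨a1, a2⟩ := ht x hx.1
    obtain ⟨b1, b2⟩ := ht y hy.1
    rw [hx.2] at a2
    rw [hy.2] at b2
    rw [abs_le] at a1 b1
    have := (hh x y hyx).1
    have e : h x - h y = t y - t x := by linarith
    have : (x:ℤ) - y ≤ 34 * m0 + 67 := by linarith
    omega
  have himg : (S.image k).card ≤ (14 * N + 400 + 200 * m0) / (100 * p) + 1 := by
    refine card_le_of_diam _ _ ?_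
    intro x hx y hy
    rw [Finset.mem_image] at hx hy
    obtain ⟨n, hn, rfl⟩ := hx
    obtain ⟨m, hm, rfl⟩ := hy
    obtain ⟨a1, a2⟩ := ht n hn
    obtain ⟨b1, b2⟩ := ht m hm
    rw [abs_le] at a1 b1
    have hn' := (hS n hn).1
    have hm' := (hS m hm).1
    have e : (100 * p : ℤ) * (k n - k m) ≤ 14 * N + 400 + 200 * m0 := by
      have e1 : (100 * p : ℤ) * (k n - k m) = 100 * (h m - h n) + 100 * (t m - t n) := by
        have : (p:ℤ) * (k n - k m) = (h m - h n) + (t m - t n) := by
          rw [mul_sub, ← a2, ← b2]; ring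
        rw [mul_assoc, this]; ring
      rw [e1]
      rcases le_total n m with hnm | hnm
      · have := (hh m n hnm).2
        have : (m:ℤ) - n ≤ N := by omega
        linarith
      · have := (hh n m hnm).1
        have : (0:ℤ) ≤ n - m := by omega
        linarith [Int.natCast_nonneg N]
    have hp' : (0:ℤ) < 100 * p := by positivity
    have e' : (k n - k m) * (100 * p : ℤ) ≤ 14 * N + 400 + 200 * m0 := by rw [mul_comm]; exact e
    have := Int.le_ediv_of_mul_le hp' e'
    push_cast
    exact this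
  calc S.card ≤ (34 * m0 + 68) * (S.image k).card := Finset.card_le_mul_card_image S _ hfib
    _ ≤ _ := Nat.mul_le_mul_left _ himg

end Pool.Agent.Helper62_SFT
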