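import Pool.Agent.Helper62_SFT.Basic

/-!
# Squad MP_5e5085_pr : module LB (lower bound)
-/

set_option autoImplicit false

open MeasureTheory

namespace Pool.Agent.Helper62_SFT
open Pool.Agent.Helper50_SFT

section bad
variable {K : Type} [Finite K] [MeasurableSpace K] [MeasurableSingletonClass K]
  (μ : Measure ℝ) [IsProbabilityMeasure μ]


/-- Choice of a boundary condition. -/
theorem exists_local (f : (Z2 → ℝ) → K) (hf : Measurable f) (A : Set Z2) :
    ∃ (B : Set (Z2 → ℝ)) (z : Z2 → ℝ), MeasurableSet B ∧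
      (∀ y ∈ B, ∃ y' : Z2 → ℝ, (∀ u ∈ A, y' u = y u) ∧ f y' ≠ f y) ∧
      (Measure.infinitePi fun _ : Z2 => μ) {y | f (spl A y z) ≠ f y} ≤ (Measure.infinitePi fun _ : Z2 => μ) B := by
  classical
  have hE : MeasurableSet {q : (Z2 → ℝ) × (Z2 → ℝ) | f (spl A q.1 q.2) ≠ f q.1} := by
    have h1 : Measurable (fun q : (Z2 → ℝ) × (Z2 → ℝ) => (f (spl A q.1 q.2), f q.1)) :=
      (hf.comp (measurable_spl A)).prodMk (hf.comp measurable_fst)
    have h2 : MeasurableSet {x : K × K | x.1 ≠ x.2} := (Set.toFinite _).measurableSet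
    exact h1 h2
  set E := {q : (Z2 → ℝ) × (Z2 → ℝ) | f (spl A q.1 q.2) ≠ f q.1} with hEdef
  set B : Set (Z2 → ℝ) := {y | (Measure.infinitePi fun _ : Z2 => μ) (Prod.mk y ⁻¹' E) ≠ 0} with hB
  have hBm : MeasurableSet B := by
    have : Measurable fun y => (Measure.infinitePi fun _ : Z2 => μ) (Prod.mk y ⁻¹' E) := measurable_measure_prodMk_left hE
    exact this (MeasurableSet.compl (measurableSet_singleton 0))
  have hB1 : ∀ y ∈ B, ∃ y' : Z2 → ℝ, (∀ u ∈ A, y' u = y u) ∧ f y' ≠ f y := by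
    intro y hy
    have : (Prod.mk y ⁻¹' E).Nonempty := by
      rw [Set.nonempty_iff_ne_empty]
      intro h
      apply hy
      change (Measure.infinitePi fun _ : Z2 => μ) (Prod.mk y ⁻¹' E) = 0
      rw [h, measure_empty]
    obtain ⟨z, hz⟩ := this
    refine ⟨spl A y z, fun u hu => ?_, hz⟩
    simp only [spl, if_pos hu]
  -- choice of z
  have hF : MeasurableSet {q : (Z2 → ℝ) × (Z2 → ℝ) | q.2 ∉ B ∧ f (spl A q.2 q.1) ≠ f q.2} := by
    have e1 : MeasurableSet {q : (Z2 → ℝ) × (Z2 → ℝ) | q.2 ∉ B} := measurable_snd hBm.compl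
    have e2 : MeasurableSet {q : (Z2 → ℝ) × (Z2 → ℝ) | f (spl A q.2 q.1) ≠ f q.2} :=
      measurable_swap hE
    exact e1.inter e2
  have hF0 : (((Measure.infinitePi fun _ : Z2 => μ)).prod ((Measure.infinitePi fun _ : Z2 => μ))) {q : (Z2 → ℝ) × (Z2 → ℝ) | q.2 ∉ B ∧ f (spl A q.2 q.1) ≠ f q.2} = 0 := by
    rw [Measure.prod_apply_symm hF, lintegral_eq_zero_iff']
    · refine Filter.Eventually.of_forall fun y => ?_
      by_cases hy : y ∈ B
      · have : (fun x => (x, y)) ⁻¹' {q : (Z2 → ℝ) × (Z2 → ℝ) | q.2 ∉ B ∧ f (spl A q.2 q.1) ≠ f q.2} = ∅ := by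
          ext x
          simp only [Set.mem_preimage, Set.mem_ofPred_eq, Set.mem_empty_iff_false, iff_false, not_and]
          exact fun h => absurd hy h
        change (Measure.infinitePi fun _ : Z2 => μ) ((fun x => (x, y)) ⁻¹' {q : (Z2 → ℝ) × (Z2 → ℝ) | q.2 ∉ B ∧ f (spl A q.2 q.1) ≠ f q.2}) = 0
        rw [this, measure_empty]
      · have h0 : (Measure.infinitePi fun _ : Z2 => μ) (Prod.mk y ⁻¹' E) = 0 := by
          by_contra h
          exact hy h
        refine le_antisymm ?_ zero_le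
        refine (measure_mono ?_).trans h0.le
        intro x hx
        exact hx.2
    · exact (measurable_measure_prodMk_right hF).aemeasurable
  rw [Measure.measure_prod_null hF] at hF0
  obtain ⟨z, hz⟩ := hF0.exists
  replace hz : (Measure.infinitePi fun _ : Z2 => μ) (Prod.mk z ⁻¹' {q : (Z2 → ℝ) × (Z2 → ℝ) | q.2 ∉ B ∧ f (spl A q.2 q.1) ≠ f q.2}) = 0 := hz
  refine ⟨B, z, hBm, hB1, ?_⟩
  have hsub : {y | f (spl A y z) ≠ f y} ⊆
      B ∪ Prod.mk z ⁻¹' {q : (Z2 → ℝ) × (Z2 → ℝ) | q.2 ∉ B ∧ f (spl A q.2 q.1) ≠ f q.2} := by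
    intro y hy
    by_cases hyB : y ∈ B
    · exact Or.inl hyB
    · exact Or.inr ⟨hyB, hy⟩
  calc (Measure.infinitePi fun _ : Z2 => μ) {y | f (spl A y z) ≠ f y} ≤ _ := measure_mono hsub
    _ ≤ (Measure.infinitePi fun _ : Z2 => μ) B + (Measure.infinitePi fun _ : Z2 => μ) (Prod.mk z ⁻¹' {q : (Z2 → ℝ) × (Z2 → ℝ) | q.2 ∉ B ∧ f (spl A q.2 q.1) ≠ f q.2}) :=
        measure_union_le _ _
    _ = (Measure.infinitePi fun _ : Z2 => μ) B := by rw [hz, add_zero]

end bad

theorem mem_box {r : ℕ} {v : Z2} : v ∈ box r ↔ dist v 0 ≤ (r:ℝ) := by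
  unfold box
  rw [Fintype.mem_piFinset, dist_pi_le_iff (by positivity)]
  refine forall_congr' fun i => ?_
  rw [Finset.mem_Icc, Pi.zero_apply, Int.dist_eq, Int.cast_zero, sub_zero, abs_le]
  constructor
  · rintro ⟨h1, h2⟩; exact ⟨by exact_mod_cast h1, by exact_mod_cast h2⟩
  · rintro ⟨h1, h2⟩; exact ⟨by exact_mod_cast h1, by exact_mod_cast h2⟩

theorem card_box (r : ℕ) : (box r).card = (2 * r + 1) ^ 2 := by
  unfold box
  rw [Fintype.card_piFinset]
  simp only [Int.card_Icc, Finset.prod_const, Finset.card_univ, Fintype.card_fin]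
  congr 1; omega

section main
variable {K : Type} [Fintype K] [MeasurableSpace K] [MeasurableSingletonClass K]

/-- the factor -/
def fac (f : (Z2 → ℝ) → K) (y : Z2 → ℝ) : Z2 → K := fun v => f (sh v y)

theorem measurable_phase (f : (Z2 → ℝ) → K) (hf : Measurable f) {p ρ : ℕ} (Φ : (Z2 → K) → ZMod p)
    (hΦ : ∀ X X' : Z2 → K, (∀ v : Z2, dist v 0 ≤ (ρ : ℝ) → X v = X' v) → Φ X = Φ X')
    (s : Set (ZMod p)) : MeasurableSet {y | Φ (fac f y) ∈ s} := by
  classical
  have k0 : K := f (fun _ => 0)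
  let e : (box ρ → K) → (Z2 → K) := fun g v => if h : v ∈ box ρ then g ⟨v, h⟩ else k0
  have he : ∀ y, Φ (fac f y) = Φ (e (fun v : box ρ => f (sh v y))) := by
    intro y
    refine hΦ _ _ fun v hv => ?_
    simp only [e, fac, dif_pos (mem_box.2 hv)]
  have hm : Measurable (fun (y : Z2 → ℝ) (v : box ρ) => f (sh v y)) := by
    rw [measurable_pi_iff]
    exact fun v => hf.comp (measurable_sh _)
  have h2 : MeasurableSet {g : box ρ → K | Φ (e g) ∈ s} := (Set.toFinite _).measurableSet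
  have : {y | Φ (fac f y) ∈ s} = (fun (y : Z2 → ℝ) (v : box ρ) => f (sh v y)) ⁻¹'
      {g : box ρ → K | Φ (e g) ∈ s} := by
    ext y
    simp only [Set.mem_ofPred_eq, Set.mem_preimage, he]
  rw [this]
  exact hm h2

variable (μ : Measure ℝ) [IsProbabilityMeasure μ]


theorem measure_shift (v : Z2) {s : Set (Z2 → ℝ)} (hs : MeasurableSet s) :
    (Measure.infinitePi fun _ : Z2 => μ) {y | sh v y ∈ s} = (Measure.infinitePi fun _ : Z2 => μ) s :=
  (mp_sh μ v).measure_preimage hs.nullMeasurableSet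

theorem phase_close (f g : (Z2 → ℝ) → K) (hf : Measurable f) (hg : Measurable g) {p ρ : ℕ}
    (Φ : (Z2 → K) → ZMod p)
    (hΦ : ∀ X X' : Z2 → K, (∀ v : Z2, dist v 0 ≤ (ρ : ℝ) → X v = X' v) → Φ X = Φ X') :
    (Measure.infinitePi fun _ : Z2 => μ) {y | Φ (fac g y) ≠ Φ (fac f y)} ≤ (2 * ρ + 1 : ℕ) ^ 2 * (Measure.infinitePi fun _ : Z2 => μ) {y | g y ≠ f y} := by
  classical
  have hm : MeasurableSet {y | g y ≠ f y} := by
    have h1 : Measurable (fun y => (g y, f y)) := hg.prodMk hf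
    have h2 : MeasurableSet {x : K × K | x.1 ≠ x.2} := (Set.toFinite _).measurableSet
    exact h1 h2
  have hsub : {y | Φ (fac g y) ≠ Φ (fac f y)} ⊆ ⋃ v ∈ box ρ, {y | sh v y ∈ {y | g y ≠ f y}} := by
    intro y hy
    by_contra h
    apply hy
    refine hΦ _ _ fun v hv => ?_
    by_contra h'
    apply h
    rw [Set.mem_iUnion₂]
    exact ⟨v, mem_box.2 hv, h'⟩
  calc (Measure.infinitePi fun _ : Z2 => μ) {y | Φ (fac g y) ≠ Φ (fac f y)}
      ≤ ∑ v ∈ box ρ, (Measure.infinitePi fun _ : Z2 => μ) {y | sh v y ∈ {y | g y ≠ f y}} :=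
        (measure_mono hsub).trans (measure_biUnion_finset_le _ _)
    _ = ∑ v ∈ box ρ, (Measure.infinitePi fun _ : Z2 => μ) {y | g y ≠ f y} := by
        refine Finset.sum_congr rfl fun v _ => measure_shift μ v hm
    _ = _ := by
        rw [Finset.sum_const, card_box, nsmul_eq_mul]
        push_cast; rfl

end main

/-- unit vector -/
def e0 (n : ℕ) : Z2 := fun c => if c = 0 then (n : ℤ) else 0

theorem e0_zero (n : ℕ) : e0 n 0 = n := rfl

theorem dist_e0 (n m : ℕ) : dist (e0 n) (e0 m) = |(n:ℝ) - m| := by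
  refine le_antisymm ?_ ?_
  · rw [dist_pi_le_iff (abs_nonneg _)]
    intro c
    unfold e0
    by_cases hc : c = 0
    · rw [if_pos hc, if_pos hc, Int.dist_eq]; push_cast; exact le_rfl
    · rw [if_neg hc, if_neg hc, dist_self]; exact abs_nonneg _
  · have := dist_le_pi_dist (e0 n) (e0 m) 0
    rw [Int.dist_eq] at this
    simpa [e0] using this

theorem e0_z : e0 0 = 0 := by funext c; simp [e0]

theorem speed {H : Z2 → ℤ}
    (hH : ∀ x x' : Z2, |10 * ((H x - H x' : ℤ) : ℝ) - ((x 0 - x' 0 : ℤ) : ℝ)| ≤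
      4 / 10 * dist x x' + 40) (n m : ℕ) (hmn : m ≤ n) :
    6 * ((n:ℤ) - m) - 400 ≤ 100 * (H (e0 n) - H (e0 m)) ∧
      100 * (H (e0 n) - H (e0 m)) ≤ 14 * ((n:ℤ) - m) + 400 := by
  have h := hH (e0 n) (e0 m)
  rw [dist_e0, e0_zero, e0_zero, abs_le] at h
  have hnm : (m:ℝ) ≤ n := by exact_mod_cast hmn
  rw [abs_of_nonneg (by linarith : (0:ℝ) ≤ (n:ℝ) - m)] at h
  push_cast at h
  obtain ⟨h1, h2⟩ := h
  constructor
  · have : (6 * ((n:ℝ) - m) - 400) ≤ 100 * (H (e0 n) - H (e0 m)) := by linarith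
    exact_mod_cast this
  · have : 100 * ((H (e0 n) : ℝ) - H (e0 m)) ≤ 14 * ((n:ℝ) - m) + 400 := by linarith
    exact_mod_cast this

theorem arith {r ρ p m0 N : ℕ} (hp : 1000 * (r + ρ + 1) ≤ p)
    (hm0 : m0 = (14 * (2 * (r + ρ) + 1) + 400) / 100) (hN : N = 1000 * (r + ρ + 1 + m0)) :
    8 * ((34 * m0 + 68) * ((14 * N + 400 + 200 * m0) / (100 * p) + 1)) < 5 * N := by
  set q := r + ρ + 1 with hq
  have hq1 : 1 ≤ q := by omega
  have h100 : 100 * m0 ≤ 28 * q + 386 := by
    have := Nat.div_mul_le_self (14 * (2 * (r + ρ) + 1) + 400) 100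
    omega
  have h34 : 34 * m0 + 68 ≤ 209 * q := by omega
  have hpp : 0 < 100 * p := by omega
  set D := (14 * N + 400 + 200 * m0) / (100 * p) with hD
  have hD1 : D * (100 * p) ≤ 14 * N + 400 + 200 * m0 := Nat.div_mul_le_self _ _
  have hD2 : 100000 * (q * D) ≤ 14 * N + 400 + 200 * m0 := by
    calc 100000 * (q * D) = D * (100 * (1000 * q)) := by ring
      _ ≤ D * (100 * p) := Nat.mul_le_mul_left _ (Nat.mul_le_mul_left _ hp)
      _ ≤ _ := hD1
  have h3 : (34 * m0 + 68) * (D + 1) ≤ 209 * (q * D) + 209 * q := by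
    calc (34 * m0 + 68) * (D + 1) ≤ (209 * q) * (D + 1) := Nat.mul_le_mul_right _ h34
      _ = _ := by ring
  omega

theorem fac_sh {K : Type} (f : (Z2 → ℝ) → K) (x : Z2) (y : Z2 → ℝ) :
    fac f (sh x y) = fun v => f (fun w => y (w + (x + v))) := by
  funext v
  unfold fac
  rw [sh_sh, add_comm]
  rfl

theorem sh_zero (y : Z2 → ℝ) : sh 0 y = y := by funext w; simp [sh]

theorem LB : LowerStatement := by
  classical
  intro K _ _ _ μ _ f hf p ρ r hp Φ hΦ hH
  have : NeZero p := ⟨by omega⟩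
  by_contra hcon
  push Not at hcon
  set A : Set Z2 := {u | ‖u‖ ≤ (r:ℝ)} with hA
  obtain ⟨B, z0, hBm, hB1, hB2⟩ := exists_local μ f hf A
  have hB3 := hcon B hBm (fun y hy => by
    obtain ⟨y', h1, h2⟩ := hB1 y hy
    exact ⟨y', fun u hu => h1 u hu, h2⟩)
  set fr : (Z2 → ℝ) → K := fun y => f (spl A y z0) with hfr
  have hfrm : Measurable fr :=
    hf.comp ((measurable_spl A).comp (measurable_id.prodMk measurable_const))
  -- the phases
  set Dl : Set (Z2 → ℝ) := {y | Φ (fac fr y) ≠ Φ (fac f y)} with hDl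
  have hDlm : MeasurableSet Dl := by
    have : Dl = ⋃ c : ZMod p, ({y | Φ (fac fr y) ∈ ({c} : Set (ZMod p))} ∩
        {y | Φ (fac f y) ∈ ({c}ᶜ : Set (ZMod p))}) := by
      ext y
      simp only [hDl, Set.mem_ofPred_eq, Set.mem_iUnion, Set.mem_inter_iff, Set.mem_singleton_iff,
        Set.mem_compl_iff]
      constructor
      · intro h; exact ⟨_, rfl, fun h' => h h'.symm⟩
      · rintro ⟨c, h1, h2⟩ h3
        exact h2 (h3 ▸ h1)
    rw [this]
    exact MeasurableSet.iUnion fun c => (measurable_phase fr hfrm Φ hΦ _).inter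
      (measurable_phase f hf Φ hΦ _)
  have hDl8 : (Measure.infinitePi fun _ : Z2 => μ) Dl ≤ ENNReal.ofReal (1 / 8) := by
    refine (phase_close μ f fr hf hfrm Φ hΦ).trans ?_
    refine (mul_le_mul_right (hB2.trans hB3.le) _).trans ?_
    have h1 : (((2 * ρ + 1 : ℕ) : ENNReal)) ^ 2 = ENNReal.ofReal ((2 * ρ + 1) ^ 2) := by
      rw [← ENNReal.ofReal_natCast, ← ENNReal.ofReal_pow (by positivity)]
      push_cast; rfl
    rw [h1, ← ENNReal.ofReal_mul (by positivity)]
    apply ENNReal.ofReal_le_ofReal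
    have : (0:ℝ) < (2 * ρ + 1) ^ 2 := by positivity
    rw [mul_one_div, div_le_div_iff₀ (by positivity) (by norm_num)]
    linarith
  have hloc : ∀ y y' : Z2 → ℝ, (∀ u : Z2, ‖u‖ ≤ ((r + ρ : ℕ) : ℝ) → y u = y' u) →
      Φ (fac fr y) = Φ (fac fr y') := by
    intro y y' hyy
    refine hΦ _ _ fun v hv => ?_
    simp only [fac, hfr]
    congr 1
    funext u
    simp only [spl]
    by_cases hu : u ∈ A
    · rw [if_pos hu, if_pos hu]
      refine hyy _ ?_
      rw [dist_zero_right] at hv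
      have hu' : ‖u‖ ≤ (r:ℝ) := hu
      push_cast
      exact (norm_add_le _ _).trans (add_le_add hu' hv)
    · rw [if_neg hu, if_neg hu]
  -- nearby windows
  obtain ⟨s, hs⟩ : ∃ s, s = 2 * (r + ρ) + 1 := ⟨_, rfl⟩
  obtain ⟨m0, hm0⟩ : ∃ m0, m0 = (14 * (2 * (r + ρ) + 1) + 400) / 100 := ⟨_, rfl⟩
  set J : ZMod p → ZMod p → Prop := fun a x => ∃ t : ℤ, |t| ≤ m0 ∧ a = x + t with hJ
  set Q : Set (Z2 → ℝ) := {y | J (Φ (fac fr (sh (e0 s) y))) (Φ (fac fr y))} with hQ
  have hQm : MeasurableSet Q := by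
    have : Q = ⋃ c : {c : ZMod p × ZMod p // J c.1 c.2},
        ({y | sh (e0 s) y ∈ {y | Φ (fac fr y) ∈ ({c.1.1} : Set (ZMod p))}} ∩
        {y | Φ (fac fr y) ∈ ({c.1.2} : Set (ZMod p))}) := by
      ext y
      simp only [hQ, Set.mem_ofPred_eq, Set.mem_iUnion, Set.mem_inter_iff, Set.mem_singleton_iff]
      constructor
      · intro h; exact ⟨⟨(_, _), h⟩, rfl, rfl⟩
      · rintro ⟨⟨c, hc⟩, h1, h2⟩
        rw [h1, h2]; exact hc
    rw [this]
    exact MeasurableSet.iUnion fun c =>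
      (measurable_sh (e0 s) (measurable_phase fr hfrm Φ hΦ _)).inter
      (measurable_phase fr hfrm Φ hΦ _)
  have hQ4 : (Measure.infinitePi fun _ : Z2 => μ) Qᶜ ≤ ENNReal.ofReal (1 / 4) := by
    have hsub : Qᶜ ⊆ (Dl ∪ {y | sh (e0 s) y ∈ Dl}) ∪ {y | ¬ ∃ H : Z2 → ℤ,
        (∀ x, Φ (fun v => f (fun w => y (w + (x + v)))) = (H x : ZMod p)) ∧
        ∀ x x' : Z2, |10 * ((H x - H x' : ℤ) : ℝ) - ((x 0 - x' 0 : ℤ) : ℝ)| ≤
          4 / 10 * dist x x' + 40} := by
      intro y hy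
      by_contra hcon2
      rw [Set.mem_union, Set.mem_union, not_or, not_or] at hcon2
      obtain ⟨⟨h1, h2⟩, h3⟩ := hcon2
      have h1' : Φ (fac fr y) = Φ (fac f y) := by by_contra h; exact h1 h
      have h2' : Φ (fac fr (sh (e0 s) y)) = Φ (fac f (sh (e0 s) y)) := by by_contra h; exact h2 h
      obtain ⟨H, hH1, hH2⟩ := not_not.1 h3
      apply hy
      change ∃ t : ℤ, |t| ≤ m0 ∧ Φ (fac fr (sh (e0 s) y)) = Φ (fac fr y) + t
      refine ⟨H (e0 s) - H (e0 0), ?_, ?_⟩
      · have := speed hH2 s 0 (Nat.zero_le _)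
        push_cast at this
        rw [abs_le]
        omega
      · have e3 : Φ (fac f y) = H 0 := by
          rw [← hH1 0]
          congr 1
          funext v
          simp only [fac, zero_add]
          rfl
        rw [h1', h2', fac_sh, hH1, e3, e0_z]
        push_cast; ring
    refine (measure_mono hsub).trans ?_
    refine (measure_union_le _ _).trans ?_
    have hz : (Measure.infinitePi fun _ : Z2 => μ) {y | ¬ ∃ H : Z2 → ℤ,
        (∀ x, Φ (fun v => f (fun w => y (w + (x + v)))) = (H x : ZMod p)) ∧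
        ∀ x x' : Z2, |10 * ((H x - H x' : ℤ) : ℝ) - ((x 0 - x' 0 : ℤ) : ℝ)| ≤
          4 / 10 * dist x x' + 40} = 0 := hH
    rw [hz, add_zero]
    refine (measure_union_le _ _).trans ?_
    rw [measure_shift μ (e0 s) hDlm]
    refine (add_le_add hDl8 hDl8).trans ?_
    rw [← ENNReal.ofReal_add (by norm_num) (by norm_num)]
    apply ENNReal.ofReal_le_ofReal
    norm_num
  -- choice of a phase
  set A' : Set Z2 := {u | ‖u‖ ≤ ((r + ρ : ℕ) : ℝ)} with hA'
  have hsp := (mp_spl μ A').measure_preimage hQm.compl.nullMeasurableSet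
  have hspm : MeasurableSet ((fun q : (Z2 → ℝ) × (Z2 → ℝ) => spl A' q.1 q.2) ⁻¹' Qᶜ) :=
    measurable_spl A' hQm.compl
  rw [Measure.prod_apply_symm hspm] at hsp
  obtain ⟨z, hz⟩ := exists_le_lintegral (μ := Measure.infinitePi fun _ : Z2 => μ)
    (f := fun z => (Measure.infinitePi fun _ : Z2 => μ)
      ((fun x => (x, z)) ⁻¹' ((fun q : (Z2 → ℝ) × (Z2 → ℝ) => spl A' q.1 q.2) ⁻¹' Qᶜ)))
    (measurable_measure_prodMk_right hspm).aemeasurable
  rw [hsp] at hz
  set a : ZMod p := Φ (fac fr (sh (e0 s) z)) with ha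
  have h5 : (Measure.infinitePi fun _ : Z2 => μ) {y | ¬ J a (Φ (fac f y))} ≤
      ENNReal.ofReal (3 / 8) := by
    have hsub : {y | ¬ J a (Φ (fac f y))} ⊆ ((fun x => (x, z)) ⁻¹'
        ((fun q : (Z2 → ℝ) × (Z2 → ℝ) => spl A' q.1 q.2) ⁻¹' Qᶜ)) ∪ Dl := by
      intro y hy
      by_cases hyD : y ∈ Dl
      · exact Or.inr hyD
      · left
        have h1' : Φ (fac fr y) = Φ (fac f y) := by by_contra h; exact hyD h
        change ¬ J (Φ (fac fr (sh (e0 s) (spl A' y z)))) (Φ (fac fr (spl A' y z)))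
        have e1 : Φ (fac fr (spl A' y z)) = Φ (fac fr y) := by
          refine hloc _ _ fun u hu => ?_
          simp only [spl]
          rw [if_pos (show u ∈ A' from hu)]
        have e2 : Φ (fac fr (sh (e0 s) (spl A' y z))) = a := by
          refine hloc _ _ fun u hu => ?_
          simp only [sh, spl]
          rw [if_neg]
          intro h
          have h' : ‖u + e0 s‖ ≤ ((r + ρ : ℕ) : ℝ) := h
          have k1 := (norm_le_pi_norm u 0).trans hu
          have k2 := (norm_le_pi_norm (u + e0 s) 0).trans h'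
          rw [Pi.add_apply, e0_zero] at k2
          rw [Int.norm_eq_abs, abs_le] at k1 k2
          have k3 : -((r + ρ : ℕ) : ℤ) ≤ u 0 := by exact_mod_cast k1.1
          have k4 : u 0 + (s:ℤ) ≤ ((r + ρ : ℕ) : ℤ) := by exact_mod_cast k2.2
          push_cast at k3 k4
          omega
        rw [e1, e2, h1']
        exact hy
    refine (measure_mono hsub).trans ?_
    refine (measure_union_le _ _).trans ?_
    refine (add_le_add (hz.trans hQ4) hDl8).trans ?_
    rw [← ENNReal.ofReal_add (by norm_num) (by norm_num)]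
    apply ENNReal.ofReal_le_ofReal
    norm_num
  -- counting along a long line
  obtain ⟨N, hN⟩ : ∃ N, N = 1000 * (r + ρ + 1 + m0) := ⟨_, rfl⟩
  set bd : ℕ := (34 * m0 + 68) * ((14 * N + 400 + 200 * m0) / (100 * p) + 1) with hbd
  have har : 8 * bd < 5 * N := arith hp hm0 hN
  set E : ℕ → Set (Z2 → ℝ) := fun n => {y | sh (e0 n) y ∈ {y | ¬ J a (Φ (fac f y))}} with hE
  have hEm0 : MeasurableSet {y | ¬ J a (Φ (fac f y))} :=
    measurable_phase f hf Φ hΦ {x | ¬ J a x}
  have hEm : ∀ n, MeasurableSet (E n) := fun n => measurable_sh (e0 n) hEm0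
  have hlow : ∀ᵐ y ∂(Measure.infinitePi fun _ : Z2 => μ),
      (((N - bd : ℕ) : ENNReal)) ≤ ∑ n ∈ Finset.range N, (E n).indicator (fun _ => (1:ENNReal)) y := by
    filter_upwards [hH] with y hy
    obtain ⟨H, hH1, hH2⟩ := hy
    have hc := count_bound (fun n => H (e0 n)) (fun n m hmn => speed hH2 n m hmn) a m0 N
      ((Finset.range N).filter fun n => y ∉ E n) (by
        intro n hn
        rw [Finset.mem_filter, Finset.mem_range] at hn
        refine ⟨hn.1, ?_⟩
        have h1 : J a (Φ (fac f (sh (e0 n) y))) := by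
          by_contra h; exact hn.2 h
        obtain ⟨t, ht1, ht2⟩ := h1
        refine ⟨t, ht1, ?_⟩
        rw [ht2, fac_sh, hH1])
    have hsum : ∑ n ∈ Finset.range N, (E n).indicator (fun _ => (1:ENNReal)) y =
        (((Finset.range N).filter fun n => y ∈ E n).card : ENNReal) := by
      rw [Finset.card_filter]
      push_cast
      exact Finset.sum_congr rfl fun n _ => by simp [Set.indicator_apply]
    rw [hsum]
    have := Finset.card_filter_add_card_filter_not (s := Finset.range N) (fun n => y ∈ E n)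
    rw [Finset.card_range] at this
    have h3 : N - bd ≤ ((Finset.range N).filter fun n => y ∈ E n).card := by omega
    exact_mod_cast h3
  have hint : ((N - bd : ℕ) : ENNReal) ≤ N * ENNReal.ofReal (3 / 8) := by
    calc ((N - bd : ℕ) : ENNReal)
        = ∫⁻ _, ((N - bd : ℕ) : ENNReal) ∂(Measure.infinitePi fun _ : Z2 => μ) := by
          rw [lintegral_const, measure_univ, mul_one]
      _ ≤ ∫⁻ y, ∑ n ∈ Finset.range N, (E n).indicator (fun _ => (1:ENNReal)) y
            ∂(Measure.infinitePi fun _ : Z2 => μ) := lintegral_mono_ae hlow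
      _ = ∑ n ∈ Finset.range N, (Measure.infinitePi fun _ : Z2 => μ) (E n) := by
          rw [lintegral_finsetSum _ fun n _ => measurable_const.indicator (hEm n)]
          exact Finset.sum_congr rfl fun n _ => by
            rw [lintegral_indicator (hEm n), lintegral_const, Measure.restrict_apply_univ, one_mul]
      _ ≤ ∑ n ∈ Finset.range N, ENNReal.ofReal (3 / 8) := by
          refine Finset.sum_le_sum fun n _ => ?_
          simp only [hE]
          rw [measure_shift μ (e0 n) hEm0]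
          exact h5
      _ = N * ENNReal.ofReal (3 / 8) := by
          rw [Finset.sum_const, Finset.card_range, nsmul_eq_mul]
  rw [← ENNReal.ofReal_natCast, ← ENNReal.ofReal_natCast N, ← ENNReal.ofReal_mul (by positivity),
    ENNReal.ofReal_le_ofReal_iff (by positivity)] at hint
  have h6 : bd ≤ N := by omega
  rw [Nat.cast_sub h6] at hint
  have h7 : (8:ℝ) * bd < 5 * N := by exact_mod_cast har
  linarith

end Pool.Agent.Helper62_SFT
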