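import Pool.Agent.Helper62_SFT.LB

/-!
# Squad MP_5e5085_pr : module X (existence of a finitary factor in the elastic SFT)
-/

set_option autoImplicit false

open MeasureTheory

namespace Pool.Agent.Helper62_SFT
open Pool.Agent.Helper50_SFT

/-! ## Tile sizes -/

theorem NN_ge : ∀ k, 3 ≤ NN k
  | 0 => le_rfl
  | k + 1 => by
    have h := NN_ge k
    have h2 : 2 ^ 2 ≤ 2 ^ (NN k - 1) := Nat.pow_le_pow_right (by norm_num) (by omega)
    have h3 : NN (k + 1) = 2 ^ (NN k - 1) := rfl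
    omega

theorem ell_ge : ∀ m, m + 1 ≤ ell m
  | 0 => le_rfl
  | m + 1 => by
    have h := ell_ge m
    have h2 := NN_ge m
    have h3 : ell (m + 1) = ell m * NN m := rfl
    rw [h3]
    nlinarith

theorem ell_pos (k : ℕ) : 0 < ell k := by have := ell_ge k; omega

theorem ell_dvd {i j : ℕ} (h : i ≤ j) : ell i ∣ ell j := by
  induction h with
  | refl => exact dvd_rfl
  | @step m _ ih => exact ih.trans (Dvd.intro _ rfl)

/-! ## Elasticity -/

theorem floor_aux (a b : ℝ) : |10 * (((⌊a / 10⌋ - ⌊b / 10⌋ : ℤ)) : ℝ) - (a - b)| ≤ 10 := by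
  have h1 := Int.floor_le (a / 10)
  have h2 := Int.lt_floor_add_one (a / 10)
  have h3 := Int.floor_le (b / 10)
  have h4 := Int.lt_floor_add_one (b / 10)
  push_cast
  rw [abs_le]
  constructor <;> linarith

theorem elastic_floor (ψ : Fin 2 → Z2 → ℝ)
    (hl : ∀ c x x', |ψ c x - ψ c x' - ((x c - x' c : ℤ) : ℝ)| ≤ dist x x' / 10) :
    Elastic (fun x c => ⌊ψ c x / 10⌋) := by
  refine ⟨fun x y c => ?_, fun x y h => ?_, fun x u h => ?_⟩
  · have h1 := floor_aux (ψ c x) (ψ c y)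
    have h2 := hl c x y
    rw [abs_le] at h1 h2 ⊢
    constructor <;> linarith [h1.1, h1.2, h2.1, h2.2]
  · rw [dist_pi_le_iff (by norm_num)]
    intro c
    have h2 := hl c x y
    have h3 : |((x c - y c : ℤ) : ℝ)| ≤ 1 := by
      have := (dist_le_pi_dist x y c).trans h
      rw [Int.dist_eq] at this
      push_cast; exact this
    rw [Int.dist_eq]
    have e1 := Int.floor_le (ψ c x / 10)
    have e2 := Int.lt_floor_add_one (ψ c x / 10)
    have e3 := Int.floor_le (ψ c y / 10)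
    have e4 := Int.lt_floor_add_one (ψ c y / 10)
    rw [abs_le] at h2 h3
    have k1 : ((⌊ψ c x / 10⌋ : ℤ) : ℝ) - ⌊ψ c y / 10⌋ < 2 := by
      linarith [h2.1, h2.2, h3.1, h3.2]
    have k2 : (-2 : ℝ) < ((⌊ψ c x / 10⌋ : ℤ) : ℝ) - ⌊ψ c y / 10⌋ := by
      linarith [h2.1, h2.2, h3.1, h3.2]
    have k3 : ⌊ψ c x / 10⌋ - ⌊ψ c y / 10⌋ < 2 := by exact_mod_cast k1
    have k4 : -2 < ⌊ψ c x / 10⌋ - ⌊ψ c y / 10⌋ := by exact_mod_cast k2
    rw [abs_le]
    constructor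
    · have : (-1 : ℤ) ≤ ⌊ψ c x / 10⌋ - ⌊ψ c y / 10⌋ := by omega
      exact_mod_cast this
    · have : ⌊ψ c x / 10⌋ - ⌊ψ c y / 10⌋ ≤ 1 := by omega
      exact_mod_cast this
  · set y : Z2 := fun c => round (10 * (u c : ℝ) + 5 - (ψ c x - x c)) with hy
    have hyc : ∀ c, |(y c : ℝ) - (10 * (u c : ℝ) + 5 - (ψ c x - x c))| ≤ 1 / 2 := fun c => by
      have := abs_sub_round (10 * (u c : ℝ) + 5 - (ψ c x - x c))
      rw [abs_sub_comm] at this
      exact this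
    have huc : ∀ c, |(u c : ℝ) - ⌊ψ c x / 10⌋| ≤ 1 := fun c => by
      have := (dist_le_pi_dist u (fun c => ⌊ψ c x / 10⌋) c).trans h
      rw [Int.dist_eq] at this
      exact this
    have hd : dist y x ≤ 16 := by
      rw [dist_pi_le_iff (by norm_num)]
      intro c
      rw [Int.dist_eq]
      have e1 := Int.floor_le (ψ c x / 10)
      have e2 := Int.lt_floor_add_one (ψ c x / 10)
      have h1 := hyc c
      have h2 := huc c
      rw [abs_le] at h1 h2 ⊢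
      constructor <;> linarith [h1.1, h1.2, h2.1, h2.2]
    refine ⟨y, hd, ?_⟩
    funext c
    have h1 := hyc c
    have h3 := hl c y x
    push_cast at h3
    rw [abs_le] at h1 h3
    have h4 : dist y x / 10 ≤ 16 / 10 := by linarith
    rw [Int.floor_eq_iff]
    constructor <;> linarith [h1.1, h1.2, h3.1, h3.2]

theorem Elastic.translate {h : Z2 → Z2} (hh : Elastic h) (v : Z2) : Elastic (fun x => h (v + x)) := by
  have hd : ∀ x y : Z2, dist (v + x) (v + y) = dist x y := fun x y => dist_add_left v x y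
  refine ⟨fun x y c => ?_, fun x y hxy => hh.step _ _ (by rw [hd]; exact hxy), fun x u hu => ?_⟩
  · have := hh.affine (v + x) (v + y) c
    rw [hd] at this
    simpa only [Pi.add_apply, add_sub_add_left_eq_sub] using this
  · obtain ⟨y, hy1, hy2⟩ := hh.surj (v + x) u hu
    refine ⟨y - v, ?_, ?_⟩
    · rw [← hd]; simpa using hy1
    · simpa using hy2

theorem floor_shift (a : ℝ) (L : ℕ) (n : ℤ) : ⌊(a + ((10 * L : ℕ) : ℝ) * n) / 10⌋ = ⌊a / 10⌋ + n * L := by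
  have : (a + ((10 * L : ℕ) : ℝ) * n) / 10 = a / 10 + ((n * L : ℤ) : ℝ) := by
    push_cast; ring
  rw [this, Int.floor_add_intCast]

/-! ## The value -/

section val
variable (τ : ℤ → ℤ → Cell) (D : (Z2 → ℝ) → ℕ → Z2 → Set Z2)
  (Ψ : (Z2 → ℝ) → ℕ → Z2 → Fin 2 → Z2 → ℝ)

/-- decided at stage `k` with seed `v` -/
def DecAt (k : ℕ) (v : Z2) (y : Z2 → ℝ) : Prop :=
  0 ∈ D y k v ∧ ∀ c, ¬ ((ell k : ℤ) ∣ ⌊Ψ y k v c 0 / 10⌋)

open Classical in
/-- the value -/
noncomputable def val (y : Z2 → ℝ) : Cell :=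
  if h : ∃ q : ℕ × Z2, DecAt D Ψ q.1 q.2 y then
    τ ⌊Ψ y h.choose.1 h.choose.2 0 0 / 10⌋ ⌊Ψ y h.choose.1 h.choose.2 1 0 / 10⌋ else τ 0 0

variable (hτ : ∀ (k : ℕ) (x y : ℤ), ¬ ((ell k : ℤ) ∣ x) → ¬ ((ell k : ℤ) ∣ y) →
    ∀ m n : ℤ, τ (x + m * ell (k + 1)) (y + n * ell (k + 1)) = τ x y)
  (hcons : ∀ (y : Z2 → ℝ) (i j : ℕ) (v w x : Z2), i ≤ j → x ∈ D y i v → x ∈ D y j w → ∀ c : Fin 2,
    ∃ n : ℤ, Ψ y j w c x = Ψ y i v c x + ((10 * ell (i + 1) : ℕ) : ℝ) * n)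

include hτ hcons in
theorem val_aux {y : Z2 → ℝ} {i j : ℕ} {v w : Z2} (hij : i ≤ j) (h1 : DecAt D Ψ i v y)
    (h2 : 0 ∈ D y j w) :
    τ ⌊Ψ y j w 0 0 / 10⌋ ⌊Ψ y j w 1 0 / 10⌋ = τ ⌊Ψ y i v 0 0 / 10⌋ ⌊Ψ y i v 1 0 / 10⌋ := by
  obtain ⟨m, hm⟩ := hcons y i j v w 0 hij h1.1 h2 0
  obtain ⟨n, hn⟩ := hcons y i j v w 0 hij h1.1 h2 1
  rw [hm, hn, floor_shift, floor_shift]
  exact hτ i _ _ (h1.2 0) (h1.2 1) m n

include hτ hcons in
theorem val_eq {y : Z2 → ℝ} {k : ℕ} {v : Z2} (h : DecAt D Ψ k v y) :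
    val τ D Ψ y = τ ⌊Ψ y k v 0 0 / 10⌋ ⌊Ψ y k v 1 0 / 10⌋ := by
  have hex : ∃ q : ℕ × Z2, DecAt D Ψ q.1 q.2 y := ⟨(k, v), h⟩
  unfold val
  rw [dif_pos hex]
  rcases le_total hex.choose.1 k with hle | hle
  · exact (val_aux τ D Ψ hτ hcons hle hex.choose_spec h.1).symm
  · exact val_aux τ D Ψ hτ hcons hle h hex.choose_spec.1

variable (hmeas : ∀ (j : ℕ) (v : Z2) (c : Fin 2) (I : Set ℝ),
  MeasurableSet {y | 0 ∈ D y j v ∧ Ψ y j v c 0 ∈ I})

include hτ hcons hmeas in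
theorem measurable_val (s : Cell) : MeasurableSet (val τ D Ψ ⁻¹' {s}) := by
  classical
  set T : ℕ × Z2 × ℤ × ℤ → Set (Z2 → ℝ) := fun q =>
    {y | 0 ∈ D y q.1 q.2.1 ∧ Ψ y q.1 q.2.1 0 0 ∈ {x : ℝ | ⌊x / 10⌋ = q.2.2.1}} ∩
    {y | 0 ∈ D y q.1 q.2.1 ∧ Ψ y q.1 q.2.1 1 0 ∈ {x : ℝ | ⌊x / 10⌋ = q.2.2.2}} with hT
  have hTm : ∀ q, MeasurableSet (T q) := fun q => (hmeas _ _ _ _).inter (hmeas _ _ _ _)
  set W : Set (ℕ × Z2 × ℤ × ℤ) := {q | ¬ ((ell q.1 : ℤ) ∣ q.2.2.1) ∧ ¬ ((ell q.1 : ℤ) ∣ q.2.2.2)} with hW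
  have hdec : ∀ y, (∃ q : ℕ × Z2, DecAt D Ψ q.1 q.2 y) ↔ y ∈ ⋃ q ∈ W, T q := by
    intro y
    rw [Set.mem_iUnion₂]
    constructor
    · rintro ⟨⟨k, v⟩, h1, h2⟩
      exact ⟨(k, v, _, _), ⟨h2 0, h2 1⟩, ⟨h1, rfl⟩, ⟨h1, rfl⟩⟩
    · rintro ⟨⟨k, v, a, b⟩, ⟨h1, h2⟩, ⟨h3, h4⟩, ⟨_, h6⟩⟩
      refine ⟨(k, v), h3, fun c => ?_⟩
      have h4' : ⌊Ψ y k v 0 0 / 10⌋ = a := h4
      have h6' : ⌊Ψ y k v 1 0 / 10⌋ = b := h6
      fin_cases c
      · change ¬ ((ell k : ℤ) ∣ ⌊Ψ y k v 0 0 / 10⌋)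
        rw [h4']; exact h1
      · change ¬ ((ell k : ℤ) ∣ ⌊Ψ y k v 1 0 / 10⌋)
        rw [h6']; exact h2
  have hval : ∀ y q, q ∈ W → y ∈ T q → val τ D Ψ y = τ q.2.2.1 q.2.2.2 := by
    rintro y ⟨k, v, a, b⟩ ⟨h1, h2⟩ ⟨⟨h3, h4⟩, ⟨_, h6⟩⟩
    have h4' : ⌊Ψ y k v 0 0 / 10⌋ = a := h4
    have h6' : ⌊Ψ y k v 1 0 / 10⌋ = b := h6
    have hd : DecAt D Ψ k v y := by
      refine ⟨h3, fun c => ?_⟩
      fin_cases c
      · change ¬ ((ell k : ℤ) ∣ ⌊Ψ y k v 0 0 / 10⌋)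
        rw [h4']; exact h1
      · change ¬ ((ell k : ℤ) ∣ ⌊Ψ y k v 1 0 / 10⌋)
        rw [h6']; exact h2
    rw [val_eq τ D Ψ hτ hcons hd, h4', h6']
  have hset : val τ D Ψ ⁻¹' {s} = (⋃ q ∈ W ∩ {q | τ q.2.2.1 q.2.2.2 = s}, T q) ∪
      (if τ 0 0 = s then (⋃ q ∈ W, T q)ᶜ else ∅) := by
    ext y
    rw [Set.mem_preimage, Set.mem_singleton_iff, Set.mem_union]
    by_cases hy : y ∈ ⋃ q ∈ W, T q
    · have hn : y ∉ (if τ 0 0 = s then (⋃ q ∈ W, T q)ᶜ else ∅) := by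
        split_ifs
        · exact fun h => h hy
        · exact fun h => h
      rw [or_iff_left hn, Set.mem_iUnion₂]
      constructor
      · intro hs
        obtain ⟨q, hq, hyq⟩ := Set.mem_iUnion₂.1 hy
        exact ⟨q, ⟨hq, by rw [← hs]; exact (hval y q hq hyq).symm⟩, hyq⟩
      · rintro ⟨q, ⟨hq, hq2⟩, hyq⟩
        rw [hval y q hq hyq]; exact hq2
    · have h0 : val τ D Ψ y = τ 0 0 := by
        unfold val
        rw [dif_neg (fun h => hy ((hdec y).1 h))]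
      have hn : y ∉ ⋃ q ∈ W ∩ {q | τ q.2.2.1 q.2.2.2 = s}, T q := by
        intro h
        obtain ⟨q, hq, hyq⟩ := Set.mem_iUnion₂.1 h
        exact hy (Set.mem_iUnion₂.2 ⟨q, hq.1, hyq⟩)
      rw [or_iff_right hn, h0]
      by_cases hs : τ 0 0 = s
      · rw [if_pos hs]; exact ⟨fun _ => hy, fun _ => hs⟩
      · rw [if_neg hs]; exact ⟨fun h => absurd h hs, fun h => h.elim⟩
  rw [hset]
  have hU : MeasurableSet (⋃ q ∈ W, T q) :=
    MeasurableSet.biUnion (Set.to_countable _) fun q _ => hTm q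
  refine MeasurableSet.union (MeasurableSet.biUnion (Set.to_countable _) fun q _ => hTm q) ?_
  split_ifs
  · exact hU.compl
  · exact MeasurableSet.empty

end val

/-! ## Probability of being undecided -/

/-- vector along a coordinate axis -/
def ec (c : Fin 2) (n : ℕ) : Z2 := fun c' => if c' = c then (n : ℤ) else 0

theorem ec_self (c : Fin 2) (n : ℕ) : ec c n c = n := by simp [ec]

theorem dist_ec (c : Fin 2) (n m : ℕ) : dist (ec c n) (ec c m) = |(n:ℝ) - m| := by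
  refine le_antisymm ?_ ?_
  · rw [dist_pi_le_iff (abs_nonneg _)]
    intro c'
    unfold ec
    by_cases hc : c' = c
    · rw [if_pos hc, if_pos hc, Int.dist_eq]; push_cast; exact le_rfl
    · rw [if_neg hc, if_neg hc, dist_self]; exact abs_nonneg _
  · have := dist_le_pi_dist (ec c n) (ec c m) c
    rw [Int.dist_eq, ec_self, ec_self] at this
    simpa using this

section prob
variable (D : (Z2 → ℝ) → ℕ → Z2 → Set Z2)
  (Ψ : (Z2 → ℝ) → ℕ → Z2 → Fin 2 → Z2 → ℝ)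

/-- undecided at a late stage -/
def GG (m : ℕ) (c : Fin 2) : Set (Z2 → ℝ) :=
  ⋃ (k : ℕ) (_ : m ≤ k) (v : Z2), {y | 0 ∈ D y k v ∧ Ψ y k v c 0 ∈ {x : ℝ | (ell m : ℤ) ∣ ⌊x / 10⌋}}

theorem mem_GG {m : ℕ} {c : Fin 2} {y : Z2 → ℝ} : y ∈ GG D Ψ m c ↔
    ∃ k, m ≤ k ∧ ∃ v, 0 ∈ D y k v ∧ (ell m : ℤ) ∣ ⌊Ψ y k v c 0 / 10⌋ := by
  simp only [GG, Set.mem_iUnion, Set.mem_ofPred_eq, exists_prop]

variable (hD : ∀ (y : Z2 → ℝ) t j v x, x ∈ D (sh t y) j v ↔ x + t ∈ D y j (v + t))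
  (hΨ : ∀ (y : Z2 → ℝ) t j v c x, Ψ (sh t y) j v c x = Ψ y j (v + t) c (x + t))
  (hmeas : ∀ (j : ℕ) (v : Z2) (c : Fin 2) (I : Set ℝ),
    MeasurableSet {y | 0 ∈ D y j v ∧ Ψ y j v c 0 ∈ I})
  (hlip : ∀ (y : Z2 → ℝ) j v c x x',
    |Ψ y j v c x - Ψ y j v c x' - ((x c - x' c : ℤ) : ℝ)| ≤ dist x x' / 10)
  (hcons : ∀ (y : Z2 → ℝ) (i j : ℕ) (v w x : Z2), i ≤ j → x ∈ D y i v → x ∈ D y j w → ∀ c : Fin 2,
    ∃ n : ℤ, Ψ y j w c x = Ψ y i v c x + ((10 * ell (i + 1) : ℕ) : ℝ) * n)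
  (ν : Measure ℝ) [IsProbabilityMeasure ν]
  (hcov : ∀ᵐ y ∂(Measure.infinitePi fun _ : Z2 => ν), ∀ (x : Z2) (W : ℕ), ∀ᶠ j in Filter.atTop,
      ∃ v, ∀ u : Z2, dist u x ≤ W → u ∈ D y j v)

include hmeas in
theorem measurable_GG (m : ℕ) (c : Fin 2) : MeasurableSet (GG D Ψ m c) := by
  unfold GG
  exact MeasurableSet.iUnion fun k => MeasurableSet.iUnion fun _ => MeasurableSet.iUnion fun v =>
    hmeas k v c _

include hcons in
theorem dvd_transfer {y : Z2 → ℝ} {m J k : ℕ} {w v x : Z2} (hJ : m ≤ J) (hk : m ≤ k)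
    (h1 : x ∈ D y J w) (h2 : x ∈ D y k v) (c : Fin 2)
    (h3 : (ell m : ℤ) ∣ ⌊Ψ y k v c x / 10⌋) : (ell m : ℤ) ∣ ⌊Ψ y J w c x / 10⌋ := by
  rcases le_total k J with hle | hle
  · obtain ⟨n, hn⟩ := hcons y k J v w x hle h2 h1 c
    rw [hn, floor_shift]
    refine dvd_add h3 (Dvd.dvd.mul_left ?_ n)
    exact_mod_cast ell_dvd (by omega)
  · obtain ⟨n, hn⟩ := hcons y J k w v x hle h1 h2 c
    rw [hn, floor_shift] at h3
    refine (dvd_add_left (Dvd.dvd.mul_left ?_ n)).1 h3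
    exact_mod_cast ell_dvd (by omega)

include hD hΨ hmeas hlip hcons hcov in
theorem measure_GG (m : ℕ) (c : Fin 2) :
    (Measure.infinitePi fun _ : Z2 => ν) (GG D Ψ m c) ≤ ENNReal.ofReal (13 / ell m) := by
  classical
  have : NeZero (ell m) := ⟨(ell_pos m).ne'⟩
  have hpos : 0 < ell m := ell_pos m
  obtain ⟨N, hN⟩ : ∃ N, N = 100 * ell m := ⟨_, rfl⟩
  set E : ℕ → Set (Z2 → ℝ) := fun n => {y | sh (ec c n) y ∈ GG D Ψ m c} with hE
  have hG := measurable_GG D Ψ hmeas m c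
  have hEm : ∀ n, MeasurableSet (E n) := fun n => measurable_sh (ec c n) hG
  have hup : ∀ᵐ y ∂(Measure.infinitePi fun _ : Z2 => ν),
      ∑ n ∈ Finset.range N, (E n).indicator (fun _ => (1:ENNReal)) y ≤ ((1292 : ℕ) : ENNReal) := by
    filter_upwards [hcov] with y hy
    obtain ⟨J, hJm, w, hJ⟩ := ((hy 0 N).and (Filter.eventually_ge_atTop m)).exists.imp
      fun j hj => And.intro hj.2 hj.1
    have hc := count_bound (p := ell m) (fun n => ⌊Ψ y J w c (ec c n) / 10⌋) (by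
        intro n k hkn
        have h1 := floor_aux (Ψ y J w c (ec c n)) (Ψ y J w c (ec c k))
        have h2 := hlip y J w c (ec c n) (ec c k)
        rw [dist_ec, ec_self, ec_self] at h2
        have hkn' : (k:ℝ) ≤ n := by exact_mod_cast hkn
        rw [abs_of_nonneg (by linarith : (0:ℝ) ≤ (n:ℝ) - k)] at h2
        push_cast at h1 h2
        rw [abs_le] at h1 h2
        constructor
        · have : 6 * ((n:ℝ) - k) - 400 ≤
              100 * ((⌊Ψ y J w c (ec c n) / 10⌋ : ℝ) - ⌊Ψ y J w c (ec c k) / 10⌋) := by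
            linarith [h1.1, h1.2, h2.1, h2.2]
          exact_mod_cast this
        · have : 100 * ((⌊Ψ y J w c (ec c n) / 10⌋ : ℝ) - ⌊Ψ y J w c (ec c k) / 10⌋) ≤
              14 * ((n:ℝ) - k) + 400 := by
            linarith [h1.1, h1.2, h2.1, h2.2]
          exact_mod_cast this) 0 0 N ((Finset.range N).filter fun n => y ∈ E n) (by
        intro n hn
        rw [Finset.mem_filter, Finset.mem_range] at hn
        refine ⟨hn.1, 0, by simp, ?_⟩
        have h1 : sh (ec c n) y ∈ GG D Ψ m c := hn.2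
        rw [mem_GG] at h1
        obtain ⟨k, hk, v, h2, h3⟩ := h1
        rw [hD] at h2
        rw [hΨ] at h3
        rw [zero_add] at h2 h3
        have h4 : ec c n ∈ D y J w := by
          refine hJ _ ?_
          have : dist (ec c n) (ec c 0) ≤ N := by
            rw [dist_ec]
            have : (n:ℝ) < N := by exact_mod_cast hn.1
            rw [Nat.cast_zero, sub_zero, abs_of_nonneg (by positivity)]
            exact this.le
          have e : ec c 0 = 0 := by funext c'; simp [ec]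
          rwa [e] at this
        have h5 := dvd_transfer D Ψ hcons hJm hk h4 h2 c h3
        have h6 := (ZMod.intCast_zmod_eq_zero_iff_dvd _ (ell m)).2 h5
        rw [h6]; simp)
    have hsum : ∑ n ∈ Finset.range N, (E n).indicator (fun _ => (1:ENNReal)) y =
        (((Finset.range N).filter fun n => y ∈ E n).card : ENNReal) := by
      rw [Finset.card_filter]
      push_cast
      exact Finset.sum_congr rfl fun n _ => by simp [Set.indicator_apply]
    rw [hsum]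
    have h7 : (14 * N + 400 + 200 * 0) / (100 * ell m) ≤ 18 := by
      refine Nat.div_le_of_le_mul ?_
      rw [hN]
      nlinarith
    have h8 : ((Finset.range N).filter fun n => y ∈ E n).card ≤ 1292 := by
      refine hc.trans ?_
      calc (34 * 0 + 68) * ((14 * N + 400 + 200 * 0) / (100 * ell m) + 1)
          ≤ (34 * 0 + 68) * (18 + 1) := Nat.mul_le_mul_left _ (by omega)
        _ = 1292 := by norm_num
    exact_mod_cast h8
  have hint : (N : ENNReal) * (Measure.infinitePi fun _ : Z2 => ν) (GG D Ψ m c) ≤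
      ((1292 : ℕ) : ENNReal) := by
    calc (N : ENNReal) * (Measure.infinitePi fun _ : Z2 => ν) (GG D Ψ m c)
        = ∑ n ∈ Finset.range N, (Measure.infinitePi fun _ : Z2 => ν) (E n) := by
          rw [Finset.sum_congr rfl fun n _ => measure_shift ν (ec c n) hG, Finset.sum_const,
            Finset.card_range, nsmul_eq_mul]
      _ = ∫⁻ y, ∑ n ∈ Finset.range N, (E n).indicator (fun _ => (1:ENNReal)) y
            ∂(Measure.infinitePi fun _ : Z2 => ν) := by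
          rw [lintegral_finsetSum _ fun n _ => measurable_const.indicator (hEm n)]
          exact Finset.sum_congr rfl fun n _ => by
            rw [lintegral_indicator (hEm n), lintegral_const, Measure.restrict_apply_univ, one_mul]
      _ ≤ ∫⁻ _, ((1292 : ℕ) : ENNReal) ∂(Measure.infinitePi fun _ : Z2 => ν) :=
          lintegral_mono_ae hup
      _ = ((1292 : ℕ) : ENNReal) := by rw [lintegral_const, measure_univ, mul_one]
  have hfin : (Measure.infinitePi fun _ : Z2 => ν) (GG D Ψ m c) ≠ ⊤ := measure_ne_top _ _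
  rw [← ENNReal.ofReal_toReal hfin] at hint ⊢
  apply ENNReal.ofReal_le_ofReal
  rw [← ENNReal.ofReal_natCast, ← ENNReal.ofReal_natCast 1292, ← ENNReal.ofReal_mul (by positivity),
    ENNReal.ofReal_le_ofReal_iff (by positivity)] at hint
  have hl : (0:ℝ) < ell m := by exact_mod_cast hpos
  rw [le_div_iff₀ hl]
  rw [hN] at hint
  push_cast at hint
  nlinarith

end prob

theorem X (hT : ToeplitzStatement) (hF : FieldStatement) : ExistStatement := by
  classical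
  obtain ⟨τ, hτ1, hτ⟩ := hT
  obtain ⟨D, Ψ, rr, hD, hΨ, hloc, hmeas, hlip, hcons, hcov⟩ := hF (fun j => 10 * ell (j + 1))
    (fun j => by have := ell_ge (j + 1); omega)
    (fun i j hij => Nat.mul_dvd_mul_left 10 (ell_dvd (by omega)))
  have hprob : IsProbabilityMeasure unif := ⟨by simp [unif]⟩
  have hD' : ∀ (y : Z2 → ℝ) t j v x, x ∈ D (sh t y) j v ↔ x + t ∈ D y j (v + t) := hD
  have hΨ' : ∀ (y : Z2 → ℝ) t j v c x, Ψ (sh t y) j v c x = Ψ y j (v + t) c (x + t) := hΨ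
  -- decided everywhere
  have hbad : ∀ (R : ℕ) (v : Z2), ∀ᵐ y ∂(Measure.infinitePi fun _ : Z2 => unif),
      ∃ m, ∀ u ∈ box R, ∀ c, sh (v + u) y ∉ GG D Ψ m c := by
    intro R v
    have hle : ∀ m : ℕ, (Measure.infinitePi fun _ : Z2 => unif)
        {y | ¬ ∃ m, ∀ u ∈ box R, ∀ c, sh (v + u) y ∉ GG D Ψ m c} ≤
        ENNReal.ofReal (((2 * R + 1) ^ 2 * 2 * 13) * (1 / ((m:ℝ) + 1))) := by
      intro m
      have hsub : {y | ¬ ∃ m, ∀ u ∈ box R, ∀ c, sh (v + u) y ∉ GG D Ψ m c} ⊆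
          ⋃ u ∈ box R, ⋃ c ∈ (Finset.univ : Finset (Fin 2)), {y | sh (v + u) y ∈ GG D Ψ m c} := by
        intro y hy
        by_contra h
        apply hy
        refine ⟨m, fun u hu c hc => h ?_⟩
        rw [Set.mem_iUnion₂]
        refine ⟨u, hu, ?_⟩
        rw [Set.mem_iUnion₂]
        exact ⟨c, Finset.mem_univ _, hc⟩
      calc (Measure.infinitePi fun _ : Z2 => unif) _
          ≤ ∑ u ∈ box R, ∑ c : Fin 2, (Measure.infinitePi fun _ : Z2 => unif)
              {y | sh (v + u) y ∈ GG D Ψ m c} := by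
            refine (measure_mono hsub).trans ((measure_biUnion_finset_le _ _).trans ?_)
            exact Finset.sum_le_sum fun u _ => measure_biUnion_finset_le _ _
        _ ≤ ∑ u ∈ box R, ∑ c : Fin 2, ENNReal.ofReal (13 / ell m) := by
            refine Finset.sum_le_sum fun u _ => Finset.sum_le_sum fun c _ => ?_
            rw [measure_shift unif (v + u) (measurable_GG D Ψ hmeas m c)]
            exact measure_GG D Ψ hD' hΨ' hmeas hlip hcons unif hcov m c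
        _ = ENNReal.ofReal (((2 * R + 1) ^ 2 * 2) * (13 / ell m)) := by
            rw [Finset.sum_const, Finset.sum_const, card_box, Finset.card_univ, Fintype.card_fin,
              nsmul_eq_mul, nsmul_eq_mul, ← ENNReal.ofReal_natCast, ← ENNReal.ofReal_natCast,
              ← ENNReal.ofReal_mul (by positivity), ← ENNReal.ofReal_mul (by positivity)]
            congr 1
            push_cast
            ring
        _ ≤ _ := by
            apply ENNReal.ofReal_le_ofReal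
            rw [mul_assoc ((2 * R + 1) ^ 2 * 2 : ℝ) 13, mul_one_div]
            refine mul_le_mul_of_nonneg_left ?_ (by positivity)
            refine div_le_div_of_nonneg_left (by norm_num) (by positivity) ?_
            exact_mod_cast ell_ge m
    have ht : Filter.Tendsto (fun m : ℕ => ENNReal.ofReal (((2 * R + 1) ^ 2 * 2 * 13) * (1 / ((m:ℝ) + 1))))
        Filter.atTop (nhds 0) := by
      have h1 := (tendsto_one_div_add_atTop_nhds_zero_nat (𝕜 := ℝ)).const_mul ((2 * R + 1) ^ 2 * 2 * 13 : ℝ)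
      rw [mul_zero] at h1
      have h2 := ENNReal.tendsto_ofReal h1
      rwa [ENNReal.ofReal_zero] at h2
    rw [ae_iff]
    exact le_antisymm (ge_of_tendsto' ht hle) zero_le
  have hgood : ∀ R : ℕ, ∀ᵐ y ∂(Measure.infinitePi fun _ : Z2 => unif), ∀ v : Z2, ∃ (k : ℕ) (w : Z2),
      ∀ u ∈ box R, DecAt D Ψ k (w - (v + u)) (sh (v + u) y) := by
    intro R
    have hall := ae_all_iff.2 (hbad R)
    filter_upwards [hall, hcov] with y hy1 hy2 v
    obtain ⟨m, hm⟩ := hy1 v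
    obtain ⟨k, ⟨w, hw⟩, hk⟩ := ((hy2 v R).and (Filter.eventually_ge_atTop m)).exists
    refine ⟨k, w, fun u hu => ?_⟩
    have h1 : 0 ∈ D (sh (v + u) y) k (w - (v + u)) := by
      rw [hD', zero_add, sub_add_cancel]
      refine hw _ ?_
      rw [mem_box] at hu
      have : dist (v + u) (v + 0) ≤ (R:ℝ) := by rw [dist_add_left]; exact hu
      rwa [add_zero] at this
    refine ⟨h1, fun c hc => hm u hu c ?_⟩
    rw [mem_GG]
    refine ⟨k, hk, _, h1, (Int.natCast_dvd_natCast.2 (ell_dvd hk)).trans hc⟩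
  have hgood2 : ∀ R : ℕ, ∀ᵐ y ∂(Measure.infinitePi fun _ : Z2 => unif), ∀ v : Z2,
      ∃ h : Z2 → Z2, Elastic h ∧ ∀ u : box R, val τ D Ψ (sh (v + u.1) y) = τ (h u.1 0) (h u.1 1) := by
    intro R
    filter_upwards [hgood R] with y hy v
    obtain ⟨k, w, hkw⟩ := hy v
    refine ⟨fun x => (fun x c => ⌊Ψ y k w c x / 10⌋) (v + x),
      Elastic.translate (elastic_floor (Ψ y k w) (fun c x x' => hlip y k w c x x')) v, fun u => ?_⟩
    have h1 := hkw u.1 u.2
    rw [val_eq τ D Ψ hτ hcons h1, hΨ', hΨ', zero_add, sub_add_cancel]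
  refine ⟨val τ D Ψ, measurable_val τ D Ψ hτ hcons hmeas, ?_, ?_⟩
  · filter_upwards [hgood 0] with y hy
    obtain ⟨k, w, hkw⟩ := hy 0
    have h0 : (0 : Z2) ∈ box 0 := by rw [mem_box, dist_self]; positivity
    have h1 := hkw 0 h0
    have e : sh (0 + 0) y = y := by funext u; simp [sh]
    rw [e] at h1
    refine ⟨rr k, fun y' hy' => ?_⟩
    obtain ⟨h2, h3⟩ := hloc k y y' hy' _ h1.1
    have h4 : DecAt D Ψ k (w - (0 + 0)) y' := ⟨h2, fun c => by rw [h3]; exact h1.2 c⟩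
    rw [val_eq τ D Ψ hτ hcons h1, val_eq τ D Ψ hτ hcons h4, h3, h3]
  · filter_upwards [hgood2 100] with y hy v
    obtain ⟨h, hel, hh⟩ := hy v
    exact ⟨h, hel, τ, hτ1, hh⟩

end Pool.Agent.Helper62_SFT
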